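import Mathlib

set_option autoImplicit false

/-!
Finite-type counterexample to the linear growth of `‖Δ^k‖` in Garside monoids: definitions.

`LSys S` is a finite right-complement (cube-law) system: `res s t` is what remains of `t` after `s`
(so that `s ∨ t = s * res s t`).
-/

namespace Pool.Agent.FT

structure LSys (S : Type) where
  one : S
  top : S
  res : S → S → S
  one_res : ∀ s, res one s = s
  res_one : ∀ s, res s one = one
  res_self : ∀ s, res s s = one
  cube : ∀ s t u, res (res s t) (res s u) = res (res t s) (res t u)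
  anti : ∀ s t, res s t = one → res t s = one → s = t
  top_res : ∀ s, res top s = one
  compl_compl : ∀ s, res (res s top) top = s
  mul_ex : ∀ s t, res (res s top) t = one → ∃ r, res r s = one ∧ res s r = t

/-- The hypotheses on `(M, d)` in the frozen statement, bundled. -/
structure IsGarside (M : Type) [Monoid M] (d : M) : Prop where
  left_cancel : ∀ a b c : M, a * b = a * c → b = c
  right_cancel : ∀ a b c : M, b * a = c * a → b = c
  len : ∃ len : M → ℕ, (∀ a b : M, len a + len b ≤ len (a * b)) ∧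
          ∀ a : M, len a = 0 → a = 1
  lcm : ∀ a b : M, ∃ m : M, (∃ c, m = a * c) ∧ (∃ c, m = b * c) ∧
          ∀ x : M, (∃ c, x = a * c) → (∃ c, x = b * c) → ∃ c, x = m * c
  gcd : ∀ a b : M, ∃ g : M, (∃ c, a = g * c) ∧ (∃ c, b = g * c) ∧
          ∀ x : M, (∃ c, a = x * c) → (∃ c, b = x * c) → ∃ c, g = x * c
  lcm' : ∀ a b : M, ∃ m : M, (∃ c, m = c * a) ∧ (∃ c, m = c * b) ∧
          ∀ x : M, (∃ c, x = c * a) → (∃ c, x = c * b) → ∃ c, x = c * m
  gcd' : ∀ a b : M, ∃ g : M, (∃ c, a = c * g) ∧ (∃ c, b = c * g) ∧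
          ∀ x : M, (∃ c, a = c * x) → (∃ c, b = c * x) → ∃ c, g = c * x
  balanced : ∀ x : M, (∃ c, d = x * c) ↔ (∃ c, d = c * x)
  finite : Set.Finite {x : M | ∃ c, d = x * c}
  gen : Submonoid.closure {x : M | ∃ c, d = x * c} = ⊤

/-- The data used by the growth argument: a central `d` and lines `U`, strips `R`, `L`, columns
`V` with the required relations. -/
structure Lines (M : Type) [Monoid M] (d : M) where
  U : ZMod 3 → ZMod 4 → M
  R : ZMod 3 → ZMod 4 → M
  L : ZMod 3 → ZMod 4 → M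
  V : ZMod 3 → ZMod 4 → M
  W : ZMod 3 → M
  central : ∀ x : M, d * x = x * d
  U_ne : ∀ k j, U k j ≠ 1
  R_ne : ∀ k j, R k j ≠ 1
  L_ne : ∀ k j, L k j ≠ 1
  V_ne : ∀ k j, V k j ≠ 1
  U_dvd : ∀ k j, ∃ c, U k j * c = d
  R_dvd : ∀ k j, ∃ c, c ≠ 1 ∧ R k j * c = d
  L_dvd : ∀ k j, ∃ c, c ≠ 1 ∧ L k j * c = d
  UR : ∀ k i, U k i * R k i = R k i * U k i
  UL : ∀ k i, U k i * L k i = L k i * U k i
  VR : ∀ k i, V k i * R k i = R k i * V k i
  VL : ∀ k i, V k i * L k (i + 1) = L k (i + 1) * V k i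
  VR_eq : ∀ k i, V k i * R k i = U k (i + 1) * R k (i + 1)
  VL_eq : ∀ k i, V k i * L k (i + 1) = U k i * L k i
  UU : ∀ k j, U k j * U k (j + 2) = W k
  V_zero : ∀ k, V k 0 = W (k + 1)
  V_two : ∀ k, V k 2 = W (k + 1)

end Pool.Agent.FT
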