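import Pool.Agent.Lib_helper84.FT.Table
import Pool.Agent.Lib_helper74.FT_LALG
import Pool.Agent.Lib_helper21.FT_GROWTH

set_option autoImplicit false

namespace Pool.Agent.FT

theorem exists_lines :
    ∃ (M : Type) (_ : Monoid M) (d : M), IsGarside M d ∧ Nonempty (Lines M d) := by
  obtain ⟨A, U, R, L, V, W, UR, VR, UL, VL, hU, hR, hL, hV, hRc, hLc, h1, h2, h3, h4, h5, h6,
    h7, h8, h9, h10, h11, h12, h13⟩ := exists_table_proof
  obtain ⟨M, _, ι, hG, hinj, hone, hmul, hcen⟩ := LSys.exists_garside_proof A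
  have hne : ∀ s, s ≠ A.one → ι s ≠ 1 := fun s hs h => hs (hinj (h.trans hone.symm))
  have hdvd : ∀ s, ι s * ι (A.res s A.top) = ι A.top := fun s =>
    hmul _ _ _ (A.top_res s) rfl
  refine ⟨M, inferInstance, ι A.top, hG, ⟨
    { U := fun k j => ι (U k j)
      R := fun k j => ι (R k j)
      L := fun k j => ι (L k j)
      V := fun k j => ι (V k j)
      W := fun k => ι (W k)
      central := hcen
      U_ne := fun k j => hne _ (hU k j)
      R_ne := fun k j => hne _ (hR k j)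
      L_ne := fun k j => hne _ (hL k j)
      V_ne := fun k j => hne _ (hV k j)
      U_dvd := fun k j => ⟨_, hdvd _⟩
      R_dvd := fun k j => ⟨_, hne _ (hRc k j), hdvd _⟩
      L_dvd := fun k j => ⟨_, hne _ (hLc k j), hdvd _⟩
      UR := fun k i => by rw [hmul _ _ _ (h1 k i).1 (h1 k i).2, hmul _ _ _ (h2 k i).1 (h2 k i).2]
      UL := fun k i => by rw [hmul _ _ _ (h3 k i).1 (h3 k i).2, hmul _ _ _ (h4 k i).1 (h4 k i).2]
      VR := fun k i => by rw [hmul _ _ _ (h5 k i).1 (h5 k i).2, hmul _ _ _ (h6 k i).1 (h6 k i).2]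
      VL := fun k i => by rw [hmul _ _ _ (h7 k i).1 (h7 k i).2, hmul _ _ _ (h8 k i).1 (h8 k i).2]
      VR_eq := fun k i => by
        rw [hmul _ _ _ (h5 k i).1 (h5 k i).2, hmul _ _ _ (h1 k (i + 1)).1 (h1 k (i + 1)).2, h9]
      VL_eq := fun k i => by
        rw [hmul _ _ _ (h7 k i).1 (h7 k i).2, hmul _ _ _ (h3 k i).1 (h3 k i).2, h10]
      UU := fun k j => hmul _ _ _ (h11 k j).1 (h11 k j).2
      V_zero := fun k => congrArg ι (h12 k)
      V_two := fun k => congrArg ι (h13 k) }⟩⟩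

theorem final :
    ¬ (∀ (M : Type) [Monoid M] (d : M),
      (∀ a b c : M, a * b = a * c → b = c) →
      (∀ a b c : M, b * a = c * a → b = c) →
      (∃ len : M → ℕ, (∀ a b : M, len a + len b ≤ len (a * b)) ∧
          ∀ a : M, len a = 0 → a = 1) →
      (∀ a b : M, ∃ m : M, (∃ c, m = a * c) ∧ (∃ c, m = b * c) ∧
          ∀ x : M, (∃ c, x = a * c) → (∃ c, x = b * c) → ∃ c, x = m * c) →
      (∀ a b : M, ∃ g : M, (∃ c, a = g * c) ∧ (∃ c, b = g * c) ∧
          ∀ x : M, (∃ c, a = x * c) → (∃ c, b = x * c) → ∃ c, g = x * c) →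
      (∀ a b : M, ∃ m : M, (∃ c, m = c * a) ∧ (∃ c, m = c * b) ∧
          ∀ x : M, (∃ c, x = c * a) → (∃ c, x = c * b) → ∃ c, x = c * m) →
      (∀ a b : M, ∃ g : M, (∃ c, a = c * g) ∧ (∃ c, b = c * g) ∧
          ∀ x : M, (∃ c, a = c * x) → (∃ c, b = c * x) → ∃ c, g = c * x) →
      (∀ x : M, (∃ c, d = x * c) ↔ (∃ c, d = c * x)) →
      Set.Finite {x : M | ∃ c, d = x * c} →
      Submonoid.closure {x : M | ∃ c, d = x * c} = ⊤ →
      ∃ C : ℕ, ∀ k n : ℕ, ∀ f : Fin n → M,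
        (∀ i, f i ≠ 1) → (List.ofFn f).prod = d ^ k → n ≤ C * k) := by
  intro H
  obtain ⟨M, _, d, hG, ⟨A⟩⟩ := exists_lines
  obtain ⟨C, hC⟩ := H M d hG.left_cancel hG.right_cancel hG.len hG.lcm hG.gcd hG.lcm' hG.gcd'
    hG.balanced hG.finite hG.gen
  obtain ⟨k, n, hlt, f, hf, hprod⟩ := A.unbounded_proof C
  exact absurd (hC k n f hf hprod) (not_le.mpr hlt)

end Pool.Agent.FT
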