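import Pool.Agent.Lib_helper84.FT.Final

set_option autoImplicit false

namespace Pool.Agent.FT

open Growth

/-- explicit lower bound at the powers `k ≥ 2 (2m+1)^(2m)` -/
theorem rate_nat {M : Type} [Monoid M] {d : M} (A : Lines M d) (m : ℕ) (hm : 1 ≤ m) (k : ℕ)
    (hk : 2 * (2 * m + 1) ^ (2 * m) ≤ k) : ∃ n, Len (d ^ k) n ∧ m * k ≤ 8 * n := by
  obtain ⟨T, F, h, hT, hF⟩ := claim_all A m (2 * m - 1) (by omega)
  set K := 2 * m + 1 with hK
  rw [show 2 * m - 1 + 1 = 2 * m by omega] at hF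
  obtain ⟨y, hy⟩ := pr_dvd A.central (fun i => incf A 0 0 i) (fun i => A.U_dvd 0 _)
    (K ^ (2 * m - 1)) K
  have hLen : Len (d ^ (K ^ (2 * m - 1) * K + T)) F := by
    have := (h.1 0 0).mul (Len.zero y)
    rw [pow_add, ← hy, mul_assoc, ← central_pow A.central T, ← mul_assoc]
    simpa using this
  have hKK : K ^ (2 * m - 1) * K = K ^ (2 * m) := by
    rw [← pow_succ]; congr 1; omega
  rw [hKK] at hLen
  have hKpos : 0 < K ^ (2 * m) := Nat.pow_pos (by omega)
  have hT' : T ≤ K ^ (2 * m) := by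
    refine hT.trans ?_
    rw [← hKK, mul_comm]
    exact Nat.mul_le_mul_left _ (by omega)
  set k0 := K ^ (2 * m) + T with hk0
  have hk0pos : 0 < k0 := by omega
  have hk0k : k0 ≤ k := by omega
  set q := k / k0 with hq
  have hq1 : 1 ≤ q := (Nat.one_le_div_iff hk0pos).2 hk0k
  have hpow : ∀ q : ℕ, Len (d ^ (k0 * q)) (q * F) := by
    intro q
    induction q with
    | zero => simpa using Len.zero (1 : M)
    | succ q ih =>
      have := ih.mul hLen
      rw [← pow_add] at this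
      rw [show k0 * (q + 1) = k0 * q + k0 by ring, show (q + 1) * F = q * F + F by ring]
      exact this
  refine ⟨q * F, ?_, ?_⟩
  · have h1 := (hpow q).mul (Len.zero (d ^ (k % k0)))
    rw [← pow_add, Nat.div_add_mod, add_zero] at h1
    exact h1
  · have h1 : k < k0 * (q + 1) := by
      have h3 := Nat.div_add_mod k k0
      have h2 := Nat.mod_lt k hk0pos
      rw [mul_add, mul_one, hq]
      omega
    have h2 : k0 * (q + 1) ≤ (2 * K ^ (2 * m)) * (2 * q) :=
      Nat.mul_le_mul (by omega) (by omega)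
    have h3 : m * k ≤ m * ((2 * K ^ (2 * m)) * (2 * q)) := Nat.mul_le_mul_left _ (by omega)
    have h4 : (2 * m * K ^ (2 * m)) * (2 * q) ≤ (4 * F) * (2 * q) := Nat.mul_le_mul_right _ hF
    calc m * k ≤ m * ((2 * K ^ (2 * m)) * (2 * q)) := h3
      _ = (2 * m * K ^ (2 * m)) * (2 * q) := by ring
      _ ≤ (4 * F) * (2 * q) := h4
      _ = 8 * (q * F) := by ring

/-- explicit superlinear lower bound for all `k ≥ 8` -/
theorem rate_real {M : Type} [Monoid M] {d : M} (A : Lines M d) (hd : d ≠ 1) (k : ℕ)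
    (hk : 8 ≤ k) : ∃ n, Len (d ^ k) n ∧
      (k : ℝ) * Real.log k / (128 * Real.log (Real.log k)) ≤ n := by
  set L := Real.log k with hL
  have hkR : (8 : ℝ) ≤ k := by exact_mod_cast hk
  have hL2 : 2 ≤ L := by
    have h8 : Real.log 8 = 3 * Real.log 2 := by
      rw [show (8 : ℝ) = 2 ^ 3 by norm_num, Real.log_pow]; norm_num
    have h1 : Real.log 8 ≤ L := Real.log_le_log (by norm_num) hkR
    have h2 := Real.log_two_gt_d9
    linarith
  have hll : 1 / 2 ≤ Real.log L := by
    have h1 : Real.log 2 ≤ Real.log L := Real.log_le_log (by norm_num) hL2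
    have h2 := Real.log_two_gt_d9
    linarith
  have hllpos : 0 < Real.log L := by linarith
  have hkpos : (0 : ℝ) < k := by linarith
  set x := L / (8 * Real.log L) with hx
  have hx0 : 0 ≤ x := by positivity
  have hgoal : (k : ℝ) * L / (128 * Real.log L) = k / 16 * x := by
    rw [hx]; field_simp; ring
  rw [hgoal]
  set m := ⌊x⌋₊ with hm
  have hmx : (m : ℝ) ≤ x := Nat.floor_le hx0
  have hxm : x < m + 1 := Nat.lt_floor_add_one x
  by_cases h0 : m = 0
  · refine ⟨k, Len.pow hd k, ?_⟩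
    rw [h0] at hxm
    push_cast at hxm
    nlinarith
  have hm1 : 1 ≤ m := Nat.one_le_iff_ne_zero.2 h0
  have hm1R : (1 : ℝ) ≤ m := by exact_mod_cast hm1
  have hcond : 2 * (2 * m + 1) ^ (2 * m) ≤ k := by
    have hxL : x ≤ L / 4 := by
      rw [hx, div_le_div_iff₀ (by positivity) (by norm_num)]
      nlinarith
    have h1 : ((2 * m + 1 : ℕ) : ℝ) ≤ L := by push_cast; linarith
    have h2 : Real.log ((2 * m + 1 : ℕ) : ℝ) ≤ Real.log L :=
      Real.log_le_log (by positivity) h1
    have h3 : Real.log ((2 * (2 * m + 1) ^ (2 * m) : ℕ) : ℝ) ≤ L := by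
      push_cast
      rw [Real.log_mul (by norm_num) (by positivity), Real.log_pow]
      push_cast at h2 ⊢
      have h4 : (2 * (m : ℝ)) * Real.log (2 * m + 1) ≤ (2 * x) * Real.log L := by
        apply mul_le_mul _ h2 (Real.log_nonneg (by linarith)) (by positivity)
        linarith
      have h5 : (2 * x) * Real.log L = L / 4 := by
        rw [hx]; field_simp; ring
      have h6 := Real.log_two_lt_d9
      linarith
    have h4 : ((2 * (2 * m + 1) ^ (2 * m) : ℕ) : ℝ) ≤ k := by
      have hp : (0 : ℝ) < ((2 * (2 * m + 1) ^ (2 * m) : ℕ) : ℝ) := by positivity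
      exact (Real.log_le_log_iff hp hkpos).1 (by rw [← hL]; exact h3)
    exact_mod_cast h4
  obtain ⟨n, hn, hmn⟩ := rate_nat A m hm1 k hcond
  refine ⟨n, hn, ?_⟩
  have hR : (m : ℝ) * k ≤ 8 * n := by exact_mod_cast hmn
  nlinarith

/-- the full counterexample with a rate -/
theorem counterexample :
    ∃ (M : Type) (_ : Monoid M) (d : M), IsGarside M d ∧ (∀ x : M, d * x = x * d) ∧
      ∀ k : ℕ, 8 ≤ k → ∃ n : ℕ, (∃ f : Fin n → M, (∀ i, f i ≠ 1) ∧ (List.ofFn f).prod = d ^ k) ∧
        (k : ℝ) * Real.log k / (128 * Real.log (Real.log k)) ≤ n := by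
  obtain ⟨M, _, d, hG, ⟨A⟩⟩ := exists_lines
  refine ⟨M, inferInstance, d, hG, A.central, ?_⟩
  have hd : d ≠ 1 := by
    intro h
    obtain ⟨len, h1, h2⟩ := hG.len
    obtain ⟨c, hc⟩ := A.U_dvd 0 0
    apply A.U_ne 0 0
    apply h2
    have h3 := h1 1 1
    have h4 := h1 (A.U 0 0) c
    rw [mul_one] at h3
    have h5 : len (A.U 0 0 * c) = len 1 := congrArg len (hc.trans h)
    omega
  intro k hk
  obtain ⟨n, ⟨l, h1, h2, h3⟩, hn⟩ := rate_real A hd k hk
  refine ⟨l.length, ⟨l.get, fun i => h1 _ (List.get_mem _ _), by rw [List.ofFn_get, h2]⟩, ?_⟩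
  have : (n : ℝ) ≤ l.length := by exact_mod_cast h3
  linarith

end Pool.Agent.FT
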