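import Pool.Agent.Lib_helper84.FT.Tab

set_option autoImplicit false

namespace Pool.Agent.FT

attribute [local irreducible] Tab.res Tab.pr Tab.row Tab.ent Tab.tabR Tab.tabP

namespace Tab

theorem pairs {s t : ℕ} (hs : s < 140) (ht : t < 140) :
    res s t < 140 ∧ res (res s 139) (res s t) = 0 ∧
      pr s (res s t) = pr t (res t s) ∧ (res s t = 0 → res t s = 0 → s = t) := by
  have h := (allB_iff _ _).mp ((allB_iff _ _).mp chk1_true s hs) t ht
  simp only [Bool.and_eq_true, Bool.or_eq_true, Nat.ble_eq, Nat.beq_eq] at h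
  obtain ⟨h1, h2, h3, h4⟩ := h
  refine ⟨by omega, h2, h3, fun a b => ?_⟩
  rcases h4 with (h4 | h4) | h4
  · omega
  · omega
  · exact h4

theorem comp {s x : ℕ} (hs : s < 140) (hx : x < 140) (h0 : res (res s 139) x = 0) :
    pr s x < 140 ∧ res (pr s x) s = 0 ∧ res s (pr s x) = x ∧
      ∀ u < 140, res x (res s u) = res (pr s x) u := by
  have h := (allB_iff _ _).mp ((allB_iff _ _).mp chk2_true s hs) x hx
  simp only [Bool.and_eq_true, Bool.or_eq_true, Nat.ble_eq, Nat.beq_eq, h0] at h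
  rcases h with h | ⟨h1, h2, h3, h4⟩
  · omega
  · refine ⟨by omega, h2, h3, fun u hu => ?_⟩
    have := (allB_iff _ _).mp h4 u hu
    simpa only [Nat.beq_eq] using this

theorem units {s : ℕ} (hs : s < 140) :
    res 0 s = s ∧ res s 0 = 0 ∧ res s s = 0 ∧ res 139 s = 0 ∧ res (res s 139) 139 = s := by
  have h := (allB_iff _ _).mp chk3_true s hs
  simpa only [Bool.and_eq_true, Nat.beq_eq] using h

/-- the 140 element system -/
def sys : LSys (Fin 140) where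
  one := ⟨0, by norm_num⟩
  top := ⟨139, by norm_num⟩
  res s t := ⟨res s t, (pairs s.2 t.2).1⟩
  one_res s := Fin.ext (units s.2).1
  res_one s := Fin.ext (units s.2).2.1
  res_self s := Fin.ext (units s.2).2.2.1
  cube s t u := by
    apply Fin.ext
    change res (res s t) (res s u) = res (res t s) (res t u)
    obtain ⟨a1, a2, a3, -⟩ := pairs s.2 t.2
    obtain ⟨b1, b2, b3, -⟩ := pairs t.2 s.2
    rw [(comp s.2 a1 a2).2.2.2 u u.2, (comp t.2 b1 b2).2.2.2 u u.2, a3]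
  anti s t h1 h2 := by
    apply Fin.ext
    exact (pairs s.2 t.2).2.2.2 (congrArg Fin.val h1) (congrArg Fin.val h2)
  top_res s := Fin.ext (units s.2).2.2.2.1
  compl_compl s := Fin.ext (units s.2).2.2.2.2
  mul_ex s t h := by
    have h0 : res (res s 139) t = 0 := congrArg Fin.val h
    obtain ⟨h1, h2, h3, -⟩ := comp s.2 t.2 h0
    exact ⟨⟨pr s t, h1⟩, Fin.ext h2, Fin.ext h3⟩

end Tab

def tU (k : ZMod 3) (j : ZMod 4) : Fin 140 := Fin.ofNat 140 (1 + 4 * k.val + j.val)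
def tR (k : ZMod 3) (j : ZMod 4) : Fin 140 := Fin.ofNat 140 (13 + 4 * k.val + j.val)
def tL (k : ZMod 3) (j : ZMod 4) : Fin 140 := Fin.ofNat 140 (25 + 4 * k.val + j.val)
def tV (k : ZMod 3) (j : ZMod 4) : Fin 140 :=
  if j.val % 2 = 0 then Fin.ofNat 140 (43 + (k + 1).val)
  else Fin.ofNat 140 (37 + 2 * k.val + (j.val - 1) / 2)
def tW (k : ZMod 3) : Fin 140 := Fin.ofNat 140 (43 + k.val)

def tUR (k : ZMod 3) (j : ZMod 4) : Fin 140 :=
  Fin.ofNat 140 (Tab.pr (tU k j) (tR k j))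
def tUL (k : ZMod 3) (j : ZMod 4) : Fin 140 :=
  Fin.ofNat 140 (Tab.pr (tU k j) (tL k j))

theorem exists_table_proof :
    ∃ (A : LSys (Fin 140)) (U R L V : ZMod 3 → ZMod 4 → Fin 140) (W : ZMod 3 → Fin 140)
      (UR VR UL VL : ZMod 3 → ZMod 4 → Fin 140),
      (∀ k j, U k j ≠ A.one) ∧ (∀ k j, R k j ≠ A.one) ∧ (∀ k j, L k j ≠ A.one) ∧
      (∀ k j, V k j ≠ A.one) ∧
      (∀ k j, A.res (R k j) A.top ≠ A.one) ∧ (∀ k j, A.res (L k j) A.top ≠ A.one) ∧
      -- `U R = R U = UR`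
      (∀ k i, A.res (UR k i) (U k i) = A.one ∧ A.res (U k i) (UR k i) = R k i) ∧
      (∀ k i, A.res (UR k i) (R k i) = A.one ∧ A.res (R k i) (UR k i) = U k i) ∧
      (∀ k i, A.res (UL k i) (U k i) = A.one ∧ A.res (U k i) (UL k i) = L k i) ∧
      (∀ k i, A.res (UL k i) (L k i) = A.one ∧ A.res (L k i) (UL k i) = U k i) ∧
      (∀ k i, A.res (VR k i) (V k i) = A.one ∧ A.res (V k i) (VR k i) = R k i) ∧
      (∀ k i, A.res (VR k i) (R k i) = A.one ∧ A.res (R k i) (VR k i) = V k i) ∧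
      (∀ k i, A.res (VL k i) (V k i) = A.one ∧ A.res (V k i) (VL k i) = L k (i + 1)) ∧
      (∀ k i, A.res (VL k i) (L k (i + 1)) = A.one ∧ A.res (L k (i + 1)) (VL k i) = V k i) ∧
      (∀ k i, VR k i = UR k (i + 1)) ∧ (∀ k i, VL k i = UL k i) ∧
      (∀ k j, A.res (W k) (U k j) = A.one ∧ A.res (U k j) (W k) = U k (j + 2)) ∧
      (∀ k, V k 0 = W (k + 1)) ∧ (∀ k, V k 2 = W (k + 1)) := by
  refine ⟨Tab.sys, tU, tR, tL, tV, tW, tUR, fun k i => tUR k (i + 1), tUL, tUL, ?_, ?_, ?_, ?_, ?_,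
    ?_, ?_, ?_, ?_, ?_, ?_, ?_, ?_, ?_, fun _ _ => rfl, fun _ _ => rfl, ?_, ?_, ?_⟩
  all_goals decide +kernel

end Pool.Agent.FT
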